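import Pool.Agent.Helper79.GS.St1

/-!
# Project GS, module AHD: the player who is ahead
-/

set_option autoImplicit false

namespace Pool.Agent.Helper94.GS

open Pool.Agent.Helper19.SK Pool.Agent.Helper79.GS

private theorem not_ahead_other {P : Type} (A : Arena P) (c : Bool) (u : P) (h : ahead A c u) : ¬ ahead A (!c) u := by
  cases c <;> simp_all [ahead]

private theorem ahead_rv {P : Type} (A : Arena P) (hSc : Sc A) (c : Bool) (u w : P) (h : ahead A c u)
    (hr : rv A c u w) : ahead A c w := by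
  cases c
  · have h1 : rv A true w u := ⟨hr.2, hr.1⟩
    have h2 := hSc w u h1
    simp only [ahead] at h ⊢
    simp only [Bool.false_eq_true, if_false] at h ⊢
    omega
  · have h2 := hSc u w hr
    simp only [ahead, if_true] at h ⊢
    omega

theorem hAHD (hBEH : StBEH) : StAHD := by
  intro P _ A hSc EX Cm H₁ hcl hEX c u H hu huH hH hah
  have hB := hBEH P A hSc EX Cm H₁ hcl hEX
  have h1 : MW A H true (!c) u ↔ XIN A EX H (!c) u := hB (!c) u H true hu huH hH (not_ahead_other A c u hah)
  have h2 : ∀ w, rv A c u w → (MW A (insert w H) false (!c) w ↔ XIN A EX (insert w H) (!c) w) := by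
    intro w hw
    have hwC : w ∈ Cm := hcl c u w hu hw
    refine hB (!c) w (insert w H) false hwC (Set.mem_insert _ _) ?_
      (not_ahead_other A c w (ahead_rv A hSc c u w hah hw))
    intro x hx
    rw [← hH x hx]
    constructor
    · rintro (h | h)
      · exact absurd (h ▸ hwC) hx
      · exact h
    · exact fun h => Or.inr h
  have h3 := hEX c u hu H hH
  rw [MW]
  constructor
  · rintro (h | ⟨_, h⟩ | ⟨b', hmv, hb', h⟩)
    · exact absurd h.1 (by simp)
    · exact Or.inr (Or.inl (fun h' => h (h1.mpr h')))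
    · by_cases hr : A.mv (!c) b' u
      · exact Or.inr (Or.inr ⟨b', ⟨hmv, hr⟩, hb', fun h' => h ((h2 b' ⟨hmv, hr⟩).mpr h')⟩)
      · exact Or.inl (h3.mp ⟨b', hmv, hr, hb', h⟩)
  · rintro (h | h | ⟨w, hrw, hwH, h⟩)
    · obtain ⟨b', hmv, _, hb', h'⟩ := h3.mpr h
      exact Or.inr (Or.inr ⟨b', hmv, hb', h'⟩)
    · exact Or.inr (Or.inl ⟨rfl, fun h' => h (h1.mp h')⟩)
    · exact Or.inr (Or.inr ⟨w, hrw.1, hwH, fun h' => h ((h2 w hrw).mp h')⟩)

end Pool.Agent.Helper94.GS
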